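import Pool.Agent.N353.PT.Stm

set_option autoImplicit false

/-!
# Project PT (helper353), part NEW: a new path with its reserved vertices
-/

open Finset
open scoped Classical

namespace Pool.Agent.N749.PT

open Pool.Agent.N353.PT

theorem conn_mono {V : Type} {T : V → V → Prop} {M N : ℕ} {U : Finset V} (h : Conn T M U)
    (hN : N ≤ M) : Conn T N U := fun X hX => h X (hX.trans_le hN)

/-- the arithmetic of the number of neighbours on the path -/
theorem arith {M N x c : ℕ} (hN : N ≤ M) (h : M * x ≤ 4 * M + c) : N * x ≤ 4 * N + c := by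
  rcases Nat.le_total x 4 with h4 | h4
  · have := Nat.mul_le_mul_left N h4
    omega
  · obtain ⟨y, rfl⟩ := Nat.exists_eq_add_of_le h4
    have h1 : N * y ≤ M * y := Nat.mul_le_mul_right y hN
    rw [Nat.mul_add] at h ⊢
    omega

/-- the number of the good neighbours -/
theorem good {V : Type} (S A P E Q : Finset V) (k : ℕ) (h1 : 2 * ((S ∩ A).card + k + 4) ≤ S.card)
    (h2 : 2 * (S ∩ P).card ≤ 8 + S.card) (hE : E ⊆ A ∪ P) : k ≤ (S \ E).card := by
  have h3 : (S ∩ E).card ≤ (S ∩ A).card + (S ∩ P).card := by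
    refine le_trans (card_le_card ?_) (card_union_le _ _)
    intro x hx
    rw [mem_inter] at hx
    rw [mem_union, mem_inter, mem_inter]
    rcases mem_union.1 (hE hx.2) with h | h
    · exact Or.inl ⟨hx.1, h⟩
    · exact Or.inr ⟨hx.1, h⟩
  have h4 := card_sdiff_add_card_inter S E
  omega

theorem t_NEW (h1 : S_DIST) (h2 : S_CNT) (h3 : S_REM) (h4 : S_CL) : S_NEW := by
  intro V _ T hT EA EB U S0 S1 k N hk hN hS0 hS1 hn0 hn1 hdis hC hA hB
  obtain ⟨d, r, p, G⟩ := h1 V T U S0 S1 (conn_mono hC (by omega)) hS0 hS1 hn0 hn1 hdis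
  have hcnt := h2 V T hT U S0 S1 d r p _ G hC
  have c1 : ∀ z ∈ U, N * (inN T z ∩ PP r p).card ≤ 4 * N + (inN T z).card ∧
      N * (outN T z ∩ PP r p).card ≤ 4 * N + (outN T z).card := fun z hz =>
    ⟨arith (by omega) (hcnt z hz).1, arith (by omega) (hcnt z hz).2⟩
  have c2 : ∀ z ∈ U, 2 * (inN T z ∩ PP r p).card ≤ 8 + (inN T z).card ∧
      2 * (outN T z ∩ PP r p).card ≤ 8 + (outN T z).card := fun z hz =>
    ⟨arith (N := 2) hN (c1 z hz).1, arith (N := 2) hN (c1 z hz).2⟩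
  obtain ⟨I, hI⟩ : ∃ I, I = (range r).filter fun s => 0 < s ∧ (s ≤ k ∨ r ≤ s + k) := ⟨_, rfl⟩
  have mI : ∀ s, s ∈ I ↔ s < r ∧ 0 < s ∧ (s ≤ k ∨ r ≤ s + k) := by
    intro s
    rw [hI, mem_filter, mem_range]
  have cI : I.card ≤ 2 * k := by
    have h5 : I ⊆ Icc 1 k ∪ Ico (r - k) r := by
      intro s hs
      rw [mI] at hs
      rw [mem_union, mem_Icc, mem_Ico]
      omega
    refine (card_le_card h5).trans ((card_union_le _ _).trans ?_)
    rw [Nat.card_Icc, Nat.card_Ico]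
    omega
  obtain ⟨Y, hY⟩ : ∃ Y, Y = I.image p := ⟨_, rfl⟩
  have cY : Y.card ≤ 2 * k := by
    rw [hY]
    exact card_image_le.trans cI
  have mY : ∀ z ∈ Y, z ∈ U \ (S0 ∪ S1) := by
    intro z hz
    rw [hY, mem_image] at hz
    obtain ⟨s, hs, rfl⟩ := hz
    rw [mI] at hs
    rw [mem_sdiff, mem_union]
    refine ⟨G.pU s hs.1.le, ?_⟩
    rintro (h | h)
    · have h5 := (G.d0 _ (G.pU s hs.1.le)).2 h
      rw [G.pd s hs.1.le] at h5
      omega
    · exact G.pn s hs.1 h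
  obtain ⟨Q, hQ⟩ : ∃ Q, Q = Uᶜ ∪ (S0 ∪ S1) ∪ PP r p := ⟨_, rfl⟩
  have g1 : ∀ z ∈ U \ (S0 ∪ S1), k ≤ (inN T z \ (EA ∪ Q)).card := by
    intro z hz
    have hzU := (mem_sdiff.1 hz).1
    refine good (inN T z) (Uᶜ ∪ (S0 ∪ S1) ∪ EA) (PP r p) (EA ∪ Q) Q k (hA z hz) (c2 z hzU).1 ?_
    intro x hx
    rw [hQ] at hx
    simp only [mem_union] at hx ⊢
    tauto
  have g2 : ∀ z ∈ U \ (S0 ∪ S1), k ≤ (outN T z \ (EA ∪ EB ∪ Q)).card := by
    intro z hz
    have hzU := (mem_sdiff.1 hz).1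
    refine good (outN T z) (Uᶜ ∪ (S0 ∪ S1) ∪ (EA ∪ EB)) (PP r p) (EA ∪ EB ∪ Q) Q k (hB z hz)
      (c2 z hzU).2 ?_
    intro x hx
    rw [hQ] at hx
    simp only [mem_union] at hx ⊢
    tauto
  obtain ⟨R, hRQ, hRc, hRcl⟩ := h4 V T EA EB Q Y k hk (fun z hz => g1 z (mY z hz)) (by
    rintro z (hz | hz)
    · exact g2 z (mY z hz)
    · refine g2 z ?_
      rw [hQ, mem_union, mem_union, mem_compl] at hz
      rw [mem_sdiff]
      push Not at hz
      exact ⟨hz.1.1, hz.1.2⟩)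
  have hRc' : R.card ≤ 6 * k ^ 3 := by
    refine hRc.trans ((Nat.mul_le_mul_left _ cY).trans (le_of_eq ?_))
    ring
  have hRU : R ⊆ U := by
    intro x hx
    by_contra hxU
    refine disjoint_left.1 hRQ hx ?_
    rw [hQ, mem_union, mem_union, mem_compl]
    exact Or.inl (Or.inl hxU)
  have hRd : Disjoint R (S0 ∪ S1 ∪ PP r p) := by
    refine hRQ.mono_right ?_
    intro x hx
    rw [hQ]
    simp only [mem_union] at hx ⊢
    tauto
  refine ⟨d, r, p, R, G, hRU, hRd, hRc', fun z hz => hRcl z (mem_union_right _ hz), ?_, ?_, c1⟩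
  · intro s hs0 hsr hs
    refine hRcl _ (mem_union_left _ ?_)
    rw [hY]
    exact mem_image_of_mem p ((mI s).2 ⟨hsr, hs0, hs⟩)
  · have h5 := h3 V T hT U S0 S1 d r p (N + 6 * k ^ 3) G (by
      have e : N + 6 * k ^ 3 + 4 = N + (4 + 6 * k ^ 3) := by ring
      rw [e]
      exact hC)
    intro X hX
    have h6 := h5 (X ∪ R) (by
      have := card_union_le X R
      omega)
    have e : (U \ PP r p) \ (X ∪ R) = (U \ (PP r p ∪ R)) \ X := by
      ext x
      simp only [mem_sdiff, mem_union]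
      tauto
    rw [e] at h6
    exact h6

end Pool.Agent.N749.PT
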